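import Mathlib.Analysis.Convex.Hull
import Pool.Agent.MP_b41015_an.Defs

set_option autoImplicit false

namespace Pool.Agent.MP_b41015_an

/-- The set of points reachable from the origin in time less than `t` with at most `N`
switchings when every arc may follow any fixed convex combination of the fields of the family
(piecewise constant controls with values in the convex hull): as in `Reach`, but the field `g j`
followed on `[τ j, τ (j+1)]` is any element of the convex hull of the family. -/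
def ReachHull {n k : ℕ} (f : Fin k → (Fin n → ℝ) → (Fin n → ℝ)) (t : ℝ) (N : ℕ) :
    Set (Fin n → ℝ) :=
  {x | ∃ (τ : ℕ → ℝ) (g : ℕ → (Fin n → ℝ) → (Fin n → ℝ)) (ξ : ℕ → ℝ → (Fin n → ℝ)),
    (∀ j ≤ N, g j ∈ convexHull ℝ (Set.range f)) ∧
    τ 0 = 0 ∧ (∀ j ≤ N, τ j < τ (j + 1)) ∧ τ (N + 1) < t ∧
    (∀ j ≤ N, ∀ s ∈ Set.Icc (τ j) (τ (j + 1)),
      HasDerivWithinAt (ξ j) (g j (ξ j s)) (Set.Icc (τ j) (τ (j + 1))) s) ∧
    ξ 0 0 = 0 ∧ (∀ j < N, ξ j (τ (j + 1)) = ξ (j + 1) (τ (j + 1))) ∧ ξ N (τ (N + 1)) = x}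

end Pool.Agent.MP_b41015_an
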