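import Mathlib.Analysis.Calculus.Deriv.MeanValue
import Mathlib.Analysis.Convex.Segment
import Pool.Agent.MP_b41015_an.Jets
import Pool.Agent.MP_b41015_an.SB.Defs

set_option autoImplicit false

namespace Pool.Agent.MP_b41015_an.SB

open Set

/-- First field. -/
def F1 (v : Fin 3 → ℝ) : Fin 3 → ℝ := ![1, -(v 0) ^ 3, (v 1) ^ 2]

/-- Second field. -/
def F2 (v : Fin 3 → ℝ) : Fin 3 → ℝ := ![-1, v 0, -(v 0) ^ 10]

/-- The pair. -/
def FF : Fin 2 → (Fin 3 → ℝ) → (Fin 3 → ℝ) := ![F1, F2]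

theorem reach_sub {n k : ℕ} (f : Fin k → (Fin n → ℝ) → (Fin n → ℝ)) (t : ℝ) (N : ℕ) :
    Reach f t N ⊆ ReachHull f t N := by
  rintro x ⟨τ, ι, ξ, h⟩
  exact ⟨τ, fun j => f (ι j), ξ, fun j _ => subset_convexHull ℝ _ ⟨ι j, rfl⟩, h⟩

theorem hull_FF {g : (Fin 3 → ℝ) → (Fin 3 → ℝ)} (hg : g ∈ convexHull ℝ (range FF)) :
    ∃ a b : ℝ, 0 ≤ a ∧ 0 ≤ b ∧ a + b = 1 ∧ g = a • F1 + b • F2 := by
  have : range FF = {F1, F2} := by
    ext w
    simp [FF, Fin.exists_fin_two, eq_comm, or_comm]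
  rw [this, convexHull_pair] at hg
  obtain ⟨a, b, ha, hb, hab, h⟩ := hg
  exact ⟨a, b, ha, hb, hab, h.symm⟩

theorem mono_lb {W W' : ℝ → ℝ} {s s' : ℝ} (hss : s ≤ s')
    (h : ∀ u ∈ Icc s s', HasDerivWithinAt W (W' u) (Icc s s') u)
    (h0 : ∀ u ∈ Icc s s', 0 ≤ W' u) : W s ≤ W s' := by
  have := monotoneOn_of_hasDerivWithinAt_nonneg (f := W) (f' := W') (convex_Icc s s')
    (fun u hu => (h u hu).continuousWithinAt)
    (fun u hu => (h u (interior_subset hu)).mono interior_subset)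
    (fun u hu => h0 u (interior_subset hu))
  exact this (left_mem_Icc.2 hss) (right_mem_Icc.2 hss) hss

/-- Monic shifted Legendre quartic on `[0, t]`. -/
noncomputable def Lg (t r : ℝ) : ℝ :=
  r ^ 4 - 2 * t * r ^ 3 + 9 / 7 * t ^ 2 * r ^ 2 - 2 / 7 * t ^ 3 * r + t ^ 4 / 70

/-- Primitive of `r ^ i * Lg t r`. -/
noncomputable def Mo (i : ℕ) (t r : ℝ) : ℝ :=
  r ^ (i + 5) / (i + 5) - 2 * t * (r ^ (i + 4) / (i + 4)) + 9 / 7 * t ^ 2 * (r ^ (i + 3) / (i + 3))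
    - 2 / 7 * t ^ 3 * (r ^ (i + 2) / (i + 2)) + t ^ 4 / 70 * (r ^ (i + 1) / (i + 1))

theorem hd_pw (m : ℕ) (c r : ℝ) (hc : c = m + 1) :
    HasDerivAt (fun r : ℝ => r ^ (m + 1) / c) (r ^ m) r := by
  have h := (hasDerivAt_pow (m + 1) r).div_const c
  refine h.congr_deriv ?_
  have : c ≠ 0 := by rw [hc]; positivity
  rw [hc] at this ⊢
  simp only [Nat.add_sub_cancel]
  push_cast
  field_simp

theorem hd_Mo (i : ℕ) (t r : ℝ) : HasDerivAt (Mo i t) (r ^ i * Lg t r) r := by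
  have h5 := hd_pw (i + 4) (i + 5) r (by push_cast; ring)
  have h4 := hd_pw (i + 3) (i + 4) r (by push_cast; ring)
  have h3 := hd_pw (i + 2) (i + 3) r (by push_cast; ring)
  have h2 := hd_pw (i + 1) (i + 2) r (by push_cast; ring)
  have h1 := hd_pw i (i + 1) r rfl
  have := (((h5.sub (h4.const_mul (2 * t))).add (h3.const_mul (9 / 7 * t ^ 2))).sub
    (h2.const_mul (2 / 7 * t ^ 3))).add (h1.const_mul (t ^ 4 / 70))
  refine this.congr_deriv ?_
  unfold Lg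
  ring

/-- Primitive of `2 p q - q ^ 2` for a quartic `p` with leading coefficient `A`. -/
noncomputable def Qp (p0 p1 p2 p3 A t r : ℝ) : ℝ :=
  2 * A * (p0 * Mo 0 t r + p1 * Mo 1 t r + p2 * Mo 2 t r + p3 * Mo 3 t r + A * Mo 4 t r)
    - A ^ 2 * (Mo 4 t r - 2 * t * Mo 3 t r + 9 / 7 * t ^ 2 * Mo 2 t r - 2 / 7 * t ^ 3 * Mo 1 t r
      + t ^ 4 / 70 * Mo 0 t r)

theorem hd_Qp (p0 p1 p2 p3 A t r : ℝ) : HasDerivAt (Qp p0 p1 p2 p3 A t)
    (2 * (p0 + p1 * r + p2 * r ^ 2 + p3 * r ^ 3 + A * r ^ 4) * (A * Lg t r)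
      - (A * Lg t r) ^ 2) r := by
  have h := fun i => hd_Mo i t r
  have := (((((((h 0).const_mul p0).add ((h 1).const_mul p1)).add ((h 2).const_mul p2)).add
    ((h 3).const_mul p3)).add ((h 4).const_mul A)).const_mul (2 * A)).sub
    ((((((h 4).sub ((h 3).const_mul (2 * t))).add ((h 2).const_mul (9 / 7 * t ^ 2))).sub
      ((h 1).const_mul (2 / 7 * t ^ 3))).add ((h 0).const_mul (t ^ 4 / 70))).const_mul (A ^ 2))
  refine this.congr_deriv ?_
  unfold Lg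
  ring

theorem Qp_zero (p0 p1 p2 p3 A t : ℝ) : Qp p0 p1 p2 p3 A t 0 = 0 := by
  simp [Qp, Mo]

theorem Qp_end (p0 p1 p2 p3 A t : ℝ) : Qp p0 p1 p2 p3 A t t = A ^ 2 * t ^ 9 / 44100 := by
  unfold Qp Mo
  push_cast
  ring

/-- One arc of a convex combination. -/
theorem arc {a b s s' : ℝ} (ha : 0 ≤ a) (hb : 0 ≤ b) (hab : a + b = 1) (hss : s < s')
    {ξ : ℝ → (Fin 3 → ℝ)}
    (hξ : ∀ u ∈ Icc s s', HasDerivWithinAt ξ ((a • F1 + b • F2) (ξ u)) (Icc s s') u)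
    {M : ℝ} (h1 : |ξ s 0| ≤ M) (h2 : |ξ s' 0| ≤ M) :
    |ξ s' 0 - ξ s 0| ≤ s' - s ∧
      ξ s 2 + (max (ξ s' 0 - ξ s 0) 0) ^ 9 / 5644800 - (s' - s) * M ^ 10 ≤ ξ s' 2 := by
  set x := ξ s 0 with hx
  set y := ξ s 1 with hy
  set v := a - b with hv
  set τ := s' - s with hτ
  have hτ0 : 0 < τ := by rw [hτ]; linarith
  have hX : ∀ u ∈ Icc s s', ξ u 0 = x + v * (u - s) :=
    coord_lin hξ 0 v (fun u _ => by simp [F1, F2, hv]; ring)
  have hXe : ξ s' 0 - x = v * τ := by rw [hX s' (right_mem_Icc.2 hss.le)]; ring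
  have hv1 : |v| ≤ 1 := by rw [abs_le]; constructor <;> linarith
  have hXb : ∀ u ∈ Icc s s', |ξ u 0| ≤ M := by
    intro u hu
    rw [hX u hu]
    have e : ξ s' 0 = x + v * τ := by linarith
    rw [e] at h2
    rw [abs_le] at h1 h2 ⊢
    have u1 : 0 ≤ u - s := by linarith [hu.1]
    have u2 : u - s ≤ τ := by rw [hτ]; linarith [hu.2]
    rcases le_total 0 v with h | h
    · constructor <;> nlinarith [mul_nonneg h u1, mul_le_mul_of_nonneg_left u2 h]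
    · constructor <;> nlinarith [mul_nonneg (neg_nonneg.2 h) u1,
        mul_le_mul_of_nonneg_left u2 (neg_nonneg.2 h)]
  set p1 := -a * x ^ 3 + b * x with hp1
  set p2 := -a * (3 / 2 * x ^ 2 * v) + b * v / 2 with hp2
  set p3 := -a * x * v ^ 2 with hp3
  set A := -a * v ^ 3 / 4 with hA
  have hY : ∀ u ∈ Icc s s', ξ u 1
      = y + p1 * (u - s) + p2 * (u - s) ^ 2 + p3 * (u - s) ^ 3 + A * (u - s) ^ 4 := by
    refine coord_eq hξ 1 _
      (fun u => p1 + p2 * (2 * (u - s)) + p3 * (3 * (u - s) ^ 2) + A * (4 * (u - s) ^ 3))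
      ?_ ?_ (by simp [hy])
    · intro u
      have h := (hasDerivAt_id' u).sub_const s
      have := ((((h.const_mul p1).const_add y).add ((h.pow 2).const_mul p2)).add
        ((h.pow 3).const_mul p3)).add ((h.pow 4).const_mul A)
      refine this.congr_deriv ?_
      simp
    · intro u hu
      simp only [Pi.add_apply, Pi.smul_apply, smul_eq_mul, F1, F2, Matrix.cons_val_one,
        Matrix.cons_val_zero]
      rw [hX u hu, hp1, hp2, hp3, hA]
      ring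
  have hM : 0 ≤ M := (abs_nonneg _).trans h1
  have key : ξ s 2 - a * Qp y p1 p2 p3 A τ (s - s) + M ^ 10 * (s - s)
      ≤ ξ s' 2 - a * Qp y p1 p2 p3 A τ (s' - s) + M ^ 10 * (s' - s) := by
    refine mono_lb (W := fun u => ξ u 2 - a * Qp y p1 p2 p3 A τ (u - s) + M ^ 10 * (u - s))
      (W' := fun u => a * (ξ u 1 - A * Lg τ (u - s)) ^ 2 + (M ^ 10 - b * (ξ u 0) ^ 10))
      hss.le ?_ ?_
    · intro u hu
      have h := (hasDerivAt_id' u).sub_const s
      have hz := (hasDerivWithinAt_pi.1 (hξ u hu)) 2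
      have hq := ((hd_Qp y p1 p2 p3 A τ (u - s)).comp u h).const_mul a
      have := (hz.sub hq.hasDerivWithinAt).add (h.const_mul (M ^ 10)).hasDerivWithinAt
      refine this.congr_deriv ?_
      rw [← hY u hu]
      simp [F1, F2]
      ring
    · intro u hu
      have e1 : (ξ u 0) ^ 10 ≤ M ^ 10 := by
        rw [← Even.pow_abs (by decide : Even 10)]
        exact pow_le_pow_left₀ (abs_nonneg _) (hXb u hu) 10
      have e2 : 0 ≤ (ξ u 0) ^ 10 := by positivity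
      have e3 : b * (ξ u 0) ^ 10 ≤ M ^ 10 := by nlinarith
      have e4 : 0 ≤ a * (ξ u 1 - A * Lg τ (u - s)) ^ 2 := by positivity
      linarith
  rw [sub_self, Qp_zero, ← hτ, Qp_end] at key
  refine ⟨?_, ?_⟩
  · rw [hXe, abs_mul, abs_of_pos hτ0]
    nlinarith
  · rw [hXe]
    have hc : (max (v * τ) 0) ^ 9 / 5644800 ≤ a * (A ^ 2 * τ ^ 9 / 44100) := by
      rcases le_total v 0 with h | h
      · rw [max_eq_right (mul_nonpos_of_nonpos_of_nonneg h hτ0.le)]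
        have : 0 ≤ a * (A ^ 2 * τ ^ 9 / 44100) := by positivity
        simpa using this
      · rw [max_eq_left (mul_nonneg h hτ0.le)]
        have a1 : 1 / 2 ≤ a := by linarith
        have a2 : v ≤ 1 := (le_abs_self v).trans hv1
        have a3 : (1 / 2 : ℝ) ^ 3 ≤ a ^ 3 := pow_le_pow_left₀ (by norm_num) a1 3
        have a4 : v ^ 3 ≤ 1 := pow_le_one₀ h a2
        have a5 : 0 ≤ v ^ 6 * τ ^ 9 := by positivity
        have e1 : a * (A ^ 2 * τ ^ 9 / 44100) = a ^ 3 * (v ^ 6 * τ ^ 9) / 705600 := by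
          rw [hA]; ring
        have e2 : (v * τ) ^ 9 / 5644800 = v ^ 3 * (v ^ 6 * τ ^ 9) / 5644800 := by ring
        rw [e1, e2]
        nlinarith
    linarith

/-- The invariant after `j` arcs at time `s`. -/
def Inv (j : ℕ) (s : ℝ) (p : Fin 3 → ℝ) : Prop :=
  ∃ M H : ℝ, 0 ≤ H ∧ |p 0| ≤ M ∧ M ≤ s ∧ p 0 ≤ j * H ∧ M ≤ j * H + max (-p 0) 0 ∧
    H ^ 9 / 5644800 - s * M ^ 10 ≤ p 2

theorem inv_arc {j : ℕ} {g : (Fin 3 → ℝ) → (Fin 3 → ℝ)} (hg : g ∈ convexHull ℝ (range FF))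
    {s s' : ℝ} (hss : s < s') {ξ : ℝ → (Fin 3 → ℝ)}
    (hξ : ∀ u ∈ Icc s s', HasDerivWithinAt ξ (g (ξ u)) (Icc s s') u)
    (h : Inv j s (ξ s)) : Inv (j + 1) s' (ξ s') := by
  obtain ⟨a, b, ha, hb, hab, rfl⟩ := hull_FF hg
  obtain ⟨M, H, hH, h1, h2, h3, h4, h5⟩ := h
  obtain ⟨k1, k2⟩ := arc ha hb hab hss hξ (M := max M |ξ s' 0|) (h1.trans (le_max_left _ _))
    (le_max_right _ _)
  set x := ξ s 0
  set x' := ξ s' 0
  set D := max (x' - x) 0 with hD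
  have hD0 : 0 ≤ D := le_max_right _ _
  have hD1 : x' - x ≤ D := le_max_left _ _
  have hM : 0 ≤ M := (abs_nonneg _).trans h1
  have hj : (0 : ℝ) ≤ j := Nat.cast_nonneg j
  have m1 : H ≤ max H D := le_max_left _ _
  have m2 : D ≤ max H D := le_max_right _ _
  have m3 : j * H ≤ j * max H D := mul_le_mul_of_nonneg_left m1 hj
  have n1 : -x' ≤ max (-x') 0 := le_max_left _ _
  have n2 : 0 ≤ max (-x') 0 := le_max_right _ _
  refine ⟨max M |x'|, max H D, hH.trans m1, le_max_right _ _, ?_, ?_, ?_, ?_⟩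
  · refine max_le (by linarith) ?_
    have : |x'| ≤ |x| + |x' - x| := by simpa using abs_add_le x (x' - x)
    linarith
  · push_cast
    linarith
  · push_cast
    refine max_le ?_ (abs_le.2 ⟨?_, ?_⟩)
    · have : max (-x) 0 ≤ D + max (-x') 0 := max_le (by linarith) (by linarith)
      linarith
    · have : 0 ≤ j * H := mul_nonneg hj hH
      linarith
    · linarith
  · have e1 : (max H D) ^ 9 ≤ H ^ 9 + D ^ 9 := by
      rcases le_total H D with h | h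
      · rw [max_eq_right h]
        have : 0 ≤ H ^ 9 := by positivity
        linarith
      · rw [max_eq_left h]
        have : 0 ≤ D ^ 9 := by positivity
        linarith
    have e2 : M ^ 10 ≤ (max M |x'|) ^ 10 := pow_le_pow_left₀ hM (le_max_left _ _) 10
    have e3 : s * M ^ 10 ≤ s * (max M |x'|) ^ 10 := mul_le_mul_of_nonneg_left e2 (hM.trans h2)
    linarith

theorem inv_reach {t : ℝ} {N : ℕ} {p : Fin 3 → ℝ} (hp : p ∈ ReachHull FF t N) :
    ∃ s, s < t ∧ Inv (N + 1) s p := by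
  obtain ⟨τ, g, ξ, h0, h1, h2, h3, h4, h5, h6, h7⟩ := hp
  have key : ∀ j ≤ N, Inv j (τ j) (ξ j (τ j)) := by
    intro j
    induction j with
    | zero =>
      intro _
      rw [h1, h5]
      exact ⟨0, 0, le_rfl, by simp, le_rfl, by simp, by simp, by simp⟩
    | succ j ih =>
      intro hj
      rw [← h6 j (by omega)]
      exact inv_arc (h0 j (by omega)) (h2 j (by omega)) (h4 j (by omega)) (ih (by omega))
  refine ⟨τ (N + 1), h3, ?_⟩
  rw [← h7]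
  exact inv_arc (h0 N le_rfl) (h2 N le_rfl) (h4 N le_rfl) (key N le_rfl)

theorem low (N : ℕ) : ∃ t : ℝ, 0 < t ∧ (0 : Fin 3 → ℝ) ∉ interior (ReachHull FF t N) := by
  set K : ℝ := ((N + 1 : ℕ) : ℝ) with hK
  have hK1 : 1 ≤ K := by rw [hK]; exact_mod_cast Nat.succ_le_succ (Nat.zero_le N)
  have hK9 : 1 ≤ K ^ 9 := one_le_pow₀ hK1
  set t : ℝ := 1 / (5644800 * K ^ 9) with ht
  have ht0 : 0 < t := by positivity
  have ht1 : t ≤ 1 := by
    rw [ht, div_le_one (by positivity)]; linarith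
  have ht2 : t * (5644800 * K ^ 9) = 1 := by rw [ht]; field_simp
  refine ⟨t, ht0, fun h => ?_⟩
  obtain ⟨ε, hε, hb⟩ := Metric.mem_nhds_iff.1 (mem_interior_iff_mem_nhds.1 h)
  have hm : (![0, 0, -(ε / 2)] : Fin 3 → ℝ) ∈ Metric.ball (0 : Fin 3 → ℝ) ε := by
    rw [mem_ball_zero_iff, pi_norm_lt_iff hε]
    intro i
    fin_cases i <;> simp [hε, abs_of_pos hε]
  obtain ⟨s, hs, M, H, hH, h1, h2, h3, h4, h5⟩ := inv_reach (hb hm)
  simp only [Matrix.cons_val_zero, abs_zero, neg_zero, max_self, add_zero] at h1 h3 h4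
  have h6 : (![0, 0, -(ε / 2)] : Fin 3 → ℝ) 2 = -(ε / 2) := by simp
  rw [h6] at h5
  have e1 : M ^ 9 ≤ K ^ 9 * H ^ 9 := by
    rw [← mul_pow]; exact pow_le_pow_left₀ h1 h4 9
  have e2 : s * M ≤ t := by nlinarith
  have e3 : s * M ^ 10 ≤ t * (K ^ 9 * H ^ 9) := by
    calc s * M ^ 10 = (s * M) * M ^ 9 := by ring
      _ ≤ t * (K ^ 9 * H ^ 9) := by gcongr
  have e4 : t * (K ^ 9 * H ^ 9) = H ^ 9 / 5644800 := by
    rw [eq_div_iff (by norm_num)]
    calc t * (K ^ 9 * H ^ 9) * 5644800 = t * (5644800 * K ^ 9) * H ^ 9 := by ring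
      _ = H ^ 9 := by rw [ht2, one_mul]
  linarith

end Pool.Agent.MP_b41015_an.SB
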