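import Mathlib.MeasureTheory.Integral.IntervalIntegral.FundThmCalculus
import Mathlib.Algebra.Order.Ring.Abs
import Pool.Agent.MP_b41015_an.SB.Low

set_option autoImplicit false

namespace Pool.Agent.MP_b41015_an.SB

open Set

theorem hd3 {x y z : ℝ → ℝ} {x' y' z' u : ℝ} (hx : HasDerivAt x x' u) (hy : HasDerivAt y y' u)
    (hz : HasDerivAt z z' u) :
    HasDerivAt (fun u => (![x u, y u, z u] : Fin 3 → ℝ)) ![x', y', z'] u := by
  rw [hasDerivAt_pi]
  intro i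
  fin_cases i
  · simpa using hx
  · simpa using hy
  · simpa using hz

theorem cast3 {s s' x y z x' y' z' : ℝ} (h : Rch FF s ![x, y, z]) (h0 : s = s') (h1 : x = x')
    (h2 : y = y') (h3 : z = z') : Rch FF s' ![x', y', z'] := by
  rw [← h0, ← h1, ← h2, ← h3]; exact h

theorem first {n k : ℕ} {f : Fin k → (Fin n → ℝ) → (Fin n → ℝ)} (i : Fin k)
    (φ : ℝ → (Fin n → ℝ)) (hφ : ∀ u, HasDerivAt φ (f i (φ u)) u) (h0 : φ 0 = 0) {d : ℝ}
    (hd : 0 < d) : Rch f d (φ d) := by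
  refine ⟨0, fun j => if j = 0 then 0 else d, fun _ => i, fun _ => φ, by simp, ?_, by simp,
    ?_, h0, by simp, by simp⟩
  · intro j hj
    obtain rfl : j = 0 := by omega
    simpa using hd
  · intro j _ u _
    exact (hφ u).hasDerivWithinAt

theorem flow1 (x y : ℝ) (Z : ℝ → ℝ)
    (hZ : ∀ u, HasDerivAt Z ((y - ((x + u) ^ 4 - x ^ 4) / 4) ^ 2) u) (u : ℝ) :
    HasDerivAt (fun u => (![x + u, y - ((x + u) ^ 4 - x ^ 4) / 4, Z u] : Fin 3 → ℝ))
      (FF 0 ![x + u, y - ((x + u) ^ 4 - x ^ 4) / 4, Z u]) u := by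
  have h := (hasDerivAt_id' u).const_add x
  have h2 : HasDerivAt (fun u => y - ((x + u) ^ 4 - x ^ 4) / 4) (-(x + u) ^ 3) u := by
    have := (((h.pow 4).sub_const (x ^ 4)).div_const 4).const_sub y
    refine this.congr_deriv ?_
    simp
  have := hd3 h h2 (hZ u)
  refine this.congr_deriv ?_
  simp [FF, F1]

theorem mv1 (x y : ℝ) (Z : ℝ → ℝ)
    (hZ : ∀ u, HasDerivAt Z ((y - ((x + u) ^ 4 - x ^ 4) / 4) ^ 2) u) {s d : ℝ} (hd : 0 ≤ d)
    (h : Rch FF s ![x, y, Z 0]) :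
    Rch FF (s + d) ![x + d, y - ((x + d) ^ 4 - x ^ 4) / 4, Z d] :=
  h.step 0 _ (flow1 x y Z hZ) (by simp) hd

theorem mv1b (x y B : ℝ) {d : ℝ} (hd : 0 ≤ d)
    (hB : ∀ u ∈ Icc 0 d, |y - ((x + u) ^ 4 - x ^ 4) / 4| ≤ B) :
    ∃ c, 0 ≤ c ∧ c ≤ d * B ^ 2 ∧ ∀ s z, Rch FF s ![x, y, z] →
      Rch FF (s + d) ![x + d, y - ((x + d) ^ 4 - x ^ 4) / 4, z + c] := by
  have hc : Continuous fun u : ℝ => (y - ((x + u) ^ 4 - x ^ 4) / 4) ^ 2 := by fun_prop
  refine ⟨∫ u in (0 : ℝ)..d, (y - ((x + u) ^ 4 - x ^ 4) / 4) ^ 2,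
    intervalIntegral.integral_nonneg hd fun u _ => by positivity, ?_, fun s z h => ?_⟩
  · have := intervalIntegral.integral_mono_on hd (hc.intervalIntegrable (μ := MeasureTheory.volume) 0 d)
      (continuous_const.intervalIntegrable (μ := MeasureTheory.volume) 0 d) (g := fun _ => B ^ 2)
      (fun u hu => by
        rw [← sq_abs]
        exact pow_le_pow_left₀ (abs_nonneg _) (hB u hu) 2)
    simpa using this
  · refine mv1 x y (fun w => z + ∫ u in (0 : ℝ)..w, (y - ((x + u) ^ 4 - x ^ 4) / 4) ^ 2)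
      (fun u => ((hc.integral_hasStrictDerivAt 0 u).hasDerivAt).const_add z) hd (by simpa using h)

theorem mv2 {s x y z d : ℝ} (hd : 0 ≤ d) (h : Rch FF s ![x, y, z]) :
    Rch FF (s + d) ![x - d, y + (x ^ 2 - (x - d) ^ 2) / 2, z - (x ^ 11 - (x - d) ^ 11) / 11] := by
  refine h.step 1 (fun u => (![x - u, y + (x ^ 2 - (x - u) ^ 2) / 2,
    z - (x ^ 11 - (x - u) ^ 11) / 11] : Fin 3 → ℝ)) (fun u => ?_) (by simp) hd
  have h := (hasDerivAt_id' u).const_sub x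
  have h2 : HasDerivAt (fun u => y + (x ^ 2 - (x - u) ^ 2) / 2) (x - u) u := by
    have := (((h.pow 2).const_sub (x ^ 2)).div_const 2).const_add y
    refine this.congr_deriv ?_
    simp
  have h3 : HasDerivAt (fun u => z - (x ^ 11 - (x - u) ^ 11) / 11) (-(x - u) ^ 10) u := by
    have := (((h.pow 11).const_sub (x ^ 11)).div_const 11).const_sub z
    refine this.congr_deriv ?_
    simp
  have := hd3 h h2 h3
  refine this.congr_deriv ?_
  simp [FF, F2]

theorem pow_diff {w u R : ℝ} (hw : 0 ≤ w) (hwu : w ≤ u) (hu : u ≤ R) (m : ℕ) :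
    u ^ (m + 1) - w ^ (m + 1) ≤ (u - w) * (m + 1) * R ^ m := by
  have h := abs_pow_sub_pow_le u w (m + 1)
  rw [abs_of_nonneg (hw.trans hwu), abs_of_nonneg hw, max_eq_left hwu,
    abs_of_nonneg (sub_nonneg.2 hwu), Nat.add_sub_cancel] at h
  have h2 : u ^ m ≤ R ^ m := pow_le_pow_left₀ (hw.trans hwu) hu m
  have h3 : 0 ≤ (u - w) * (m + 1) := mul_nonneg (sub_nonneg.2 hwu) (by positivity)
  calc _ ≤ |u ^ (m + 1) - w ^ (m + 1)| := le_abs_self _
    _ ≤ (u - w) * ((m + 1 : ℕ) : ℝ) * u ^ m := h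
    _ = (u - w) * (m + 1) * u ^ m := by push_cast; ring
    _ ≤ _ := mul_le_mul_of_nonneg_left h2 h3

theorem quart {x a u : ℝ} (hx : 0 ≤ x) (hu : 0 ≤ u) (hua : u ≤ a) (h : x + a ≤ 1 / 2) :
    0 ≤ ((x + u) ^ 4 - x ^ 4) / 4 ∧ ((x + u) ^ 4 - x ^ 4) / 4 ≤ a := by
  have h1 := pow_diff hx (show x ≤ x + u by linarith) (show x + u ≤ 1 by linarith) 3
  have h2 : x ^ 4 ≤ (x + u) ^ 4 := pow_le_pow_left₀ hx (by linarith) 4
  norm_num at h1
  constructor <;> linarith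

/-- Sliding out along the first axis by `K` chattering cycles, crossing, and sliding back. -/
theorem round {a R B : ℝ} (ha : 0 ≤ a) (hR : R ≤ 1 / 2) (K : ℕ) : ∀ x y : ℝ, 0 ≤ x →
    x + K * a ≤ R → |y| + K * a ^ 2 + a ≤ B →
    ∃ c, c ≤ 2 * K * a * B ^ 2 - 2 * (x + K * a / 2) ^ 11 / 11 ∧
      -((2 * x + 4 * K * a) * R ^ 10) ≤ c ∧
      ∀ s z, Rch FF s ![x, y, z] → Rch FF (s + (2 * x + 4 * K * a)) ![-x, y, z + c] := by
  induction K with
  | zero =>
    intro x y hx h1 _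
    simp only [Nat.cast_zero, zero_mul, add_zero, mul_zero, zero_div] at h1 ⊢
    refine ⟨-(2 * x ^ 11 / 11), by linarith, ?_, fun s z h => ?_⟩
    · have h2 : x ^ 10 ≤ R ^ 10 := pow_le_pow_left₀ hx h1 10
      have h3 : x * x ^ 10 ≤ x * R ^ 10 := mul_le_mul_of_nonneg_left h2 hx
      have h4 : 0 ≤ x * x ^ 10 := by positivity
      have h5 : x ^ 11 = x * x ^ 10 := by ring
      linarith
    · exact cast3 (mv2 (d := 2 * x) (by linarith) h) rfl (by ring) (by ring) (by ring)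
  | succ K ih =>
    intro x y hx h1 h2
    push_cast at h1 h2 ⊢
    have hK : (0 : ℝ) ≤ K := Nat.cast_nonneg K
    have hKa : 0 ≤ K * a := mul_nonneg hK ha
    have hKa2 : 0 ≤ K * a ^ 2 := by positivity
    have hxa : x + a ≤ R := by linarith
    have hxa2 : x + a ≤ 1 / 2 := hxa.trans hR
    have hx2 : x ^ 2 ≤ 1 / 4 := by nlinarith
    have hb0 : 0 ≤ a * x ^ 2 := by positivity
    have hb1 : a * x ^ 2 ≤ a / 4 := by nlinarith
    have hyB : |y| + a ≤ B := by nlinarith [sq_nonneg a]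
    obtain ⟨c1, c1a, c1b, m1⟩ := mv1b x y B ha (fun u hu => by
      obtain ⟨q1, q2⟩ := quart hx hu.1 hu.2 hxa2
      rw [abs_le]
      constructor <;> linarith [le_abs_self y, neg_abs_le y])
    obtain ⟨c3, c3a, c3b, m3⟩ := mv1b (-(x + a)) (y - ((x + a) ^ 4 - x ^ 4) / 4) B ha
      (fun u hu => by
        obtain ⟨q1, q2⟩ := quart (u := a - u) hx (by linarith [hu.2]) (by linarith [hu.1]) hxa2
        have e : y - ((x + a) ^ 4 - x ^ 4) / 4 - ((-(x + a) + u) ^ 4 - (-(x + a)) ^ 4) / 4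
            = y - ((x + (a - u)) ^ 4 - x ^ 4) / 4 := by ring
        rw [e, abs_le]
        constructor <;> linarith [le_abs_self y, neg_abs_le y])
    set δ : ℝ := a ^ 2 * (x ^ 2 / 2 + x * a + a ^ 2 / 4 + x ^ 4 / 2) with hδ
    have hδ0 : 0 ≤ δ := by positivity
    have hδ1 : δ ≤ a ^ 2 := by
      have e1 : x * a ≤ 1 / 4 := by nlinarith
      have e2 : a ^ 2 ≤ 1 / 4 := by nlinarith
      have e3 : x ^ 4 ≤ 1 / 16 := by nlinarith [sq_nonneg x]
      have e4 : x ^ 2 / 2 + x * a + a ^ 2 / 4 + x ^ 4 / 2 ≤ 1 := by linarith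
      calc δ ≤ a ^ 2 * 1 := mul_le_mul_of_nonneg_left e4 (sq_nonneg a)
        _ = a ^ 2 := mul_one _
    obtain ⟨c2, c2a, c2b, m2⟩ := ih (x + a - a * x ^ 2) (y - δ) (by linarith) (by linarith) (by
      have : |y - δ| ≤ |y| + δ := by
        rw [abs_le]
        constructor <;> linarith [le_abs_self y, neg_abs_le y]
      linarith)
    set G : ℝ := ((x + a) ^ 11 - (x + a - a * x ^ 2) ^ 11) / 11 with hG
    have hG0 : 0 ≤ G := by
      have : (x + a - a * x ^ 2) ^ 11 ≤ (x + a) ^ 11 :=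
        pow_le_pow_left₀ (by linarith) (by linarith) 11
      rw [hG]; linarith
    have hG1 : G ≤ a * x ^ 2 * R ^ 10 := by
      have := pow_diff (show 0 ≤ x + a - a * x ^ 2 by linarith)
        (show x + a - a * x ^ 2 ≤ x + a by linarith) hxa 10
      norm_num at this
      rw [hG]; linarith
    refine ⟨c1 - G + c2 - G + c3, ?_, ?_, fun s z h => ?_⟩
    · have : (x + (K + 1) * a / 2) ^ 11 ≤ (x + a - a * x ^ 2 + K * a / 2) ^ 11 :=
        pow_le_pow_left₀ (by positivity) (by linarith) 11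
      linarith
    · have : 0 ≤ a * R ^ 10 := by positivity
      linarith
    · have s1 := mv2 hb0 (m1 s z h)
      have s2 := m2 _ _ (cast3 s1 rfl rfl (y' := y - δ) (by rw [hδ]; ring) rfl)
      have s3 := mv2 hb0 s2
      have s4 := m3 _ _ (cast3 s3 rfl (x' := -(x + a)) (y' := y - ((x + a) ^ 4 - x ^ 4) / 4)
        (by ring) (by rw [hδ]; ring) rfl)
      exact cast3 s4 (by ring) (by ring) (by ring) (by rw [hG]; ring)

/-- A loop of small negative cost. -/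
theorem negloop {r : ℝ} (hr : 0 < r) (hr1 : r ≤ 1 / 2) : ∃ η, 0 < η ∧ η ≤ 4 * r ^ 11 ∧
    ∀ s z, Rch FF s ![0, 0, z] → Rch FF (s + 4 * r) ![0, 0, z - η] := by
  obtain ⟨K, hK⟩ := exists_nat_gt (1 + 44 * r ^ 3 / (r / 2) ^ 11)
  have hq : 0 < (r / 2) ^ 11 := by positivity
  have hq2 : 0 ≤ 44 * r ^ 3 / (r / 2) ^ 11 := by positivity
  have hK1 : (1 : ℝ) < K := by linarith
  have hK2 : 44 * r ^ 3 < K * (r / 2) ^ 11 := by
    have : 44 * r ^ 3 / (r / 2) ^ 11 < K := by linarith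
    rwa [div_lt_iff₀ hq] at this
  set a : ℝ := r / K with ha
  have ha0 : 0 < a := by positivity
  have hKa : K * a = r := by rw [ha]; field_simp
  obtain ⟨c, c1, c2, m⟩ := round (a := a) (R := r) (B := 2 * a) ha0.le hr1 K 0 0 le_rfl
    (by linarith) (by
      have : K * a ^ 2 = r * a := by rw [← hKa]; ring
      rw [this, abs_zero]
      nlinarith)
  have e1 : 2 * K * a * (2 * a) ^ 2 = 8 * r * a ^ 2 := by rw [← hKa]; ring
  have e2 : (0 + K * a / 2 : ℝ) = r / 2 := by rw [hKa]; ring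
  have e3 : (2 * 0 + 4 * K * a : ℝ) = 4 * r := by rw [← hKa]; ring
  rw [e1, e2] at c1
  rw [e3] at c2 m
  have e4 : 44 * r * a ^ 2 < (r / 2) ^ 11 := by
    have f1 : K * (K * (44 * r * a ^ 2)) = 44 * r ^ 3 := by rw [← hKa]; ring
    have f2 : K * (44 * r * a ^ 2) < (r / 2) ^ 11 :=
      lt_of_mul_lt_mul_left (by rw [f1]; exact hK2) (by linarith : (0 : ℝ) ≤ K)
    have f3 : 0 < 44 * r * a ^ 2 := by positivity
    nlinarith
  refine ⟨-c, by linarith, ?_, fun s z h => cast3 (m s z h) rfl (by simp) rfl (by ring)⟩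
  have : 4 * r * r ^ 10 = 4 * r ^ 11 := by ring
  linarith

/-- The three-arc loop from the origin. -/
theorem posloop {e : ℝ} (he : 0 < e) : Rch FF (4 * e) ![0, 0, e ^ 9 / 72 - 2 * e ^ 11 / 11] := by
  have h1 := first (f := FF) 0 _ (flow1 0 0 (fun u => u ^ 9 / 144) (fun u => by
    have := (hasDerivAt_pow 9 u).div_const 144
    refine this.congr_deriv ?_
    norm_num
    ring)) (by
      ext i
      fin_cases i <;> simp) he
  have h2 := mv2 (d := 2 * e) (by linarith) h1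
  have h3 := mv1 (-e) (-(e ^ 4 / 4)) (fun u => e ^ 9 / 72 - 2 * e ^ 11 / 11 + (u - e) ^ 9 / 144)
    (fun u => by
      have := ((((hasDerivAt_id' u).sub_const e).pow 9).div_const 144).const_add
        (e ^ 9 / 72 - 2 * e ^ 11 / 11)
      refine this.congr_deriv ?_
      norm_num
      ring) he.le (cast3 h2 rfl (by ring) (by ring) (by ring))
  exact cast3 h3 (by ring) (by ring) (by ring) (by ring)

theorem yloop {e0 y0 : ℝ} (he : 0 ≤ e0) (he1 : e0 ≤ 1 / 2) (hy : |y0| ≤ e0 ^ 2 / 4) :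
    ∃ c, |c| ≤ 2 * e0 ∧ ∀ s z, Rch FF s ![0, 0, z] → Rch FF (s + 2 * e0) ![0, y0, z + c] := by
  have hc : ContinuousOn (fun e : ℝ => e ^ 2 / 2 - e ^ 4 / 4) (Icc 0 e0) := by fun_prop
  obtain ⟨e, ⟨e1, e2⟩, he3⟩ := intermediate_value_Icc he hc (show |y0| ∈ Icc _ _ from ⟨by
    simp, by
      have : e0 ^ 4 ≤ e0 ^ 2 := pow_le_pow_of_le_one he (by linarith) (by norm_num)
      show |y0| ≤ e0 ^ 2 / 2 - e0 ^ 4 / 4
      linarith⟩)
  have he4 : e ^ 2 / 2 - e ^ 4 / 4 = |y0| := he3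
  have e11 : e ^ 11 ≤ e := by
    have := pow_le_pow_of_le_one e1 (show e ≤ 1 by linarith) (show 1 ≤ 11 by norm_num)
    simpa using this
  have e12 : 0 ≤ e ^ 11 := by positivity
  rcases le_total 0 y0 with h | h
  · rw [abs_of_nonneg h] at he4
    obtain ⟨c, c1, c2, m⟩ := mv1b 0 0 1 e1 (fun u hu => by
      obtain ⟨q1, q2⟩ := quart (x := 0) (a := e) le_rfl hu.1 hu.2 (by linarith)
      rw [abs_le]
      constructor <;> linarith)
    refine ⟨c - e ^ 11 / 11, by rw [abs_le]; constructor <;> linarith, fun s z hs => ?_⟩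
    have := mv2 e1 (m s z hs)
    exact (cast3 this rfl (by ring) (by rw [← he4]; ring) (by ring)).mono (by linarith)
  · rw [abs_of_nonpos h] at he4
    obtain ⟨c, c1, c2, m⟩ := mv1b (-e) (-(e ^ 2 / 2)) 1 e1 (fun u hu => by
      obtain ⟨q1, q2⟩ := quart (x := 0) (a := e) (u := e - u) le_rfl (by linarith [hu.2])
        (by linarith [hu.1]) (by linarith)
      obtain ⟨q3, q4⟩ := quart (x := 0) (a := e) (u := e) le_rfl e1 le_rfl (by linarith)
      have e5 : -(e ^ 2 / 2) - ((-e + u) ^ 4 - (-e) ^ 4) / 4 = -(e ^ 2 / 2)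
          - ((0 + (e - u)) ^ 4 - 0 ^ 4) / 4 + ((0 + e) ^ 4 - 0 ^ 4) / 4 := by ring
      have e6 : e ^ 2 ≤ 1 / 4 := by nlinarith
      rw [e5, abs_le]
      constructor <;> nlinarith [sq_nonneg e])
    refine ⟨c - e ^ 11 / 11, by rw [abs_le]; constructor <;> linarith, fun s z hs => ?_⟩
    have := m _ _ (cast3 (mv2 e1 hs) rfl (x' := -e) (y' := -(e ^ 2 / 2)) (by ring) (by ring) rfl)
    have hy0 : y0 = -(e ^ 2 / 2 - e ^ 4 / 4) := by linarith
    have h5 : Rch FF (s + e + e) ![0, y0, z + (c - e ^ 11 / 11)] :=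
      cast3 this rfl (by ring) (by rw [hy0]; ring) (by ring)
    exact h5.mono (by linarith)

theorem xmove {x y ρ : ℝ} (hρ : ρ ≤ 1 / 4) (hx : |x| ≤ ρ) (hy : |y| ≤ ρ) :
    ∃ y0 c, |y0| ≤ 2 * ρ ∧ |c| ≤ ρ ∧
      ∀ s z, Rch FF s ![0, y0, z] → Rch FF (s + ρ) ![x, y, z + c] := by
  obtain ⟨y1, y2⟩ := abs_le.1 hy
  obtain ⟨x1, x2⟩ := abs_le.1 hx
  rcases le_total 0 x with h | h
  · obtain ⟨q3, q4⟩ := quart (x := 0) (a := x) (u := x) le_rfl h le_rfl (by linarith)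
    obtain ⟨c, c1, c2, m⟩ := mv1b 0 (y + ((0 + x) ^ 4 - 0 ^ 4) / 4) 1 h (fun u hu => by
      obtain ⟨q1, q2⟩ := quart (x := 0) (a := x) le_rfl hu.1 hu.2 (by linarith)
      rw [abs_le]
      constructor <;> linarith)
    refine ⟨y + ((0 + x) ^ 4 - 0 ^ 4) / 4, c, by rw [abs_le]; constructor <;> linarith,
      by rw [abs_le]; constructor <;> linarith, fun s z hs => ?_⟩
    exact (cast3 (m s z hs) rfl (by ring) (by ring) rfl).mono (by linarith)
  · have e1 : 0 ≤ -x := by linarith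
    have e11 : (-x) ^ 11 ≤ -x := by
      have := pow_le_pow_of_le_one e1 (show -x ≤ 1 by linarith) (show 1 ≤ 11 by norm_num)
      simpa using this
    have e12 : 0 ≤ (-x) ^ 11 := by positivity
    have e2 : x ^ 2 ≤ ρ := by nlinarith
    refine ⟨y + x ^ 2 / 2, -((-x) ^ 11 / 11), by
      rw [abs_le]; constructor <;> nlinarith [sq_nonneg x],
      by rw [abs_le]; constructor <;> linarith, fun s z hs => ?_⟩
    exact (cast3 (mv2 e1 hs) rfl (by ring) (by ring) (by ring)).mono (by linarith)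

theorem stlc : STLC FF := by
  intro t ht
  set σ : ℝ := min (t / 12) (1 / 40) with hσ
  have hσ0 : 0 < σ := lt_min (by linarith) (by norm_num)
  have hσ1 : σ ≤ t / 12 := min_le_left _ _
  have hσ2 : σ ≤ 1 / 40 := min_le_right _ _
  obtain ⟨η, hη0, hη1, mn⟩ := negloop hσ0 (by linarith)
  have hψ : 2 * η ≤ σ ^ 9 / 72 - 2 * σ ^ 11 / 11 := by
    have e1 : σ ^ 2 ≤ 1 / 1600 := by nlinarith
    have e2 : σ ^ 11 = σ ^ 2 * σ ^ 9 := by ring
    have e3 : 0 < σ ^ 9 := by positivity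
    nlinarith
  set e0 : ℝ := min σ (η / 10) with he0
  have he1 : 0 < e0 := lt_min hσ0 (by linarith)
  have he2 : e0 ≤ σ := min_le_left _ _
  have he3 : e0 ≤ η / 10 := min_le_right _ _
  set ρ : ℝ := e0 ^ 2 / 8 with hρ
  have hρ0 : 0 < ρ := by positivity
  have hρ1 : ρ ≤ e0 := by rw [hρ]; nlinarith
  refine mem_interior.2 ⟨Metric.ball 0 ρ, fun w hw => ?_, Metric.isOpen_ball,
    Metric.mem_ball_self hρ0⟩
  rw [mem_ball_zero_iff, pi_norm_lt_iff hρ0] at hw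
  have w0 : |w 0| ≤ ρ := (hw 0).le
  have w1 : |w 1| ≤ ρ := (hw 1).le
  have w2 : |w 2| ≤ ρ := (hw 2).le
  obtain ⟨y0, c', k1, k2, mx⟩ := xmove (by linarith) w0 w1
  obtain ⟨c, k3, my⟩ := yloop he1.le (by linarith) (y0 := y0) (by rw [hρ] at k1; linarith)
  obtain ⟨a1, a2⟩ := abs_le.1 w2
  obtain ⟨a3, a4⟩ := abs_le.1 k2
  obtain ⟨a5, a6⟩ := abs_le.1 k3
  have hc : ContinuousOn (fun e : ℝ => e ^ 9 / 72 - 2 * e ^ 11 / 11) (Icc 0 σ) := by fun_prop
  obtain ⟨e, ⟨e1, e2⟩, e3⟩ := intermediate_value_Icc hσ0.le hc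
    (show w 2 - c - c' + η ∈ Icc _ _ from ⟨by
      show (0 : ℝ) ^ 9 / 72 - 2 * 0 ^ 11 / 11 ≤ _
      norm_num
      linarith, by
      show _ ≤ σ ^ 9 / 72 - 2 * σ ^ 11 / 11
      linarith⟩)
  have e4 : e ^ 9 / 72 - 2 * e ^ 11 / 11 = w 2 - c - c' + η := e3
  have e5 : 0 < e := by
    rcases e1.eq_or_lt with h | h
    · rw [← h] at e4
      norm_num at e4
      linarith
    · exact h
  have s1 := mx _ _ (my _ _ (mn _ _ (posloop e5)))
  have s2 : Rch FF _ ![w 0, w 1, w 2] := cast3 s1 rfl rfl rfl (by rw [e4]; ring)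
  have hw' : (![w 0, w 1, w 2] : Fin 3 → ℝ) = w := by
    ext i
    fin_cases i <;> simp
  rw [hw'] at s2
  exact s2.mem (by linarith)

theorem poly_FF (i : Fin 2) : IsPolynomialField (FF i) := by
  intro c
  fin_cases i <;> fin_cases c
  · exact PolyFun.const 1
  · exact ((PolyFun.coord 0).pow 3).neg
  · exact (PolyFun.coord 1).pow 2
  · exact PolyFun.const (-1)
  · exact PolyFun.coord 0
  · exact ((PolyFun.coord 0).pow 10).neg

end Pool.Agent.MP_b41015_an.SB
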